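import Mathlib
import Pool.Agent.H27.G.R_seed8.H316R2.C2
import Pool.Agent.H27.G.R_seed8.Helper112.Bilinear
import Pool.Agent.H27.G.R_seed8.Helper112.TypeI

set_option autoImplicit false

open Finset

namespace Pool.Agent.H316R2

open Pool.Agent.Helper112 Pool.Agent.Helper112.TI Pool.Agent.Helper112.TII

open Classical

/-- primitive characters -/
noncomputable def PC (f : ℕ) : Finset (DirichletCharacter ℂ f) :=
  if h : f = 0 then ∅ else
    haveI : NeZero f := ⟨h⟩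
    (univ : Finset (DirichletCharacter ℂ f)).filter (fun χ => χ.IsPrimitive)

theorem PC_eq (f : ℕ) [NeZero f] : PC f =
    (univ : Finset (DirichletCharacter ℂ f)).filter (fun χ => χ.IsPrimitive) := by
  unfold PC; rw [dif_neg (NeZero.ne f)]

theorem ls_dyadic (N F : ℕ) (α : ℕ → ℂ) :
    ∑ f ∈ Icc 1 F, ((f : ℝ) / (Nat.totient f : ℝ)) *
      ∑ χ ∈ PC f, ‖∑ n ∈ Icc 1 N, α n * χ (n : ZMod f)‖ ^ 2
      ≤ 6 * (Nat.log 2 N + 1) * ∑ n ∈ Icc 1 N, (2 * n + (F : ℝ) ^ 2) * ‖α n‖ ^ 2 := by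
  set J := Nat.log 2 N + 1 with hJ
  set β : ℕ → ℕ → ℂ := fun j n => if n ∈ Icc 1 N ∧ Nat.log 2 n = j then α n else 0 with hβ
  have h1 : ∀ f : ℕ, ∀ χ : DirichletCharacter ℂ f, ∑ n ∈ Icc 1 N, α n * χ (n : ZMod f) =
      ∑ j ∈ range J, ∑ n ∈ Icc 1 (2 ^ (j + 1)), β j n * χ (n : ZMod f) := by
    intro f χ
    have hm : ∀ n ∈ Icc 1 N, Nat.log 2 n ∈ range J := by
      intro n hn
      rw [mem_Icc] at hn
      rw [mem_range, hJ]
      have := Nat.log_mono_right (b := 2) hn.2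
      omega
    rw [← sum_fiberwise_of_maps_to hm]
    apply sum_congr rfl
    intro j _
    have e : ∑ n ∈ Icc 1 (2 ^ (j + 1)), β j n * χ (n : ZMod f) =
        ∑ n ∈ (Icc 1 N).filter (fun n => Nat.log 2 n = j), β j n * χ (n : ZMod f) := by
      symm
      apply sum_subset
      · intro n hn
        rw [mem_filter, mem_Icc] at hn
        rw [mem_Icc]
        refine ⟨hn.1.1, ?_⟩
        have := Nat.lt_pow_succ_log_self (b := 2) (by norm_num) n
        rw [hn.2] at this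
        omega
      · intro n hn hn2
        rw [hβ]
        simp only
        rw [if_neg, zero_mul]
        intro h
        apply hn2
        rw [mem_filter]
        exact h
    rw [e]
    apply sum_congr rfl
    intro n hn
    rw [mem_filter] at hn
    rw [hβ]
    simp only
    rw [if_pos hn]
  have h2 : ∀ f : ℕ, ∀ χ : DirichletCharacter ℂ f, ‖∑ n ∈ Icc 1 N, α n * χ (n : ZMod f)‖ ^ 2 ≤
      J * ∑ j ∈ range J, ‖∑ n ∈ Icc 1 (2 ^ (j + 1)), β j n * χ (n : ZMod f)‖ ^ 2 := by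
    intro f χ
    rw [h1]
    calc _ ≤ (∑ j ∈ range J, ‖∑ n ∈ Icc 1 (2 ^ (j + 1)), β j n * χ (n : ZMod f)‖) ^ 2 := by
          gcongr
          exact norm_sum_le _ _
      _ ≤ _ := by
          have := sq_sum_le_card_mul_sum_sq (s := range J)
            (f := fun j => ‖∑ n ∈ Icc 1 (2 ^ (j + 1)), β j n * χ (n : ZMod f)‖)
          rwa [card_range] at this
  have h3 : ∀ j : ℕ, ∑ f ∈ Icc 1 F, ((f : ℝ) / (Nat.totient f : ℝ)) *
      ∑ χ ∈ PC f, ‖∑ n ∈ Icc 1 (2 ^ (j + 1)), β j n * χ (n : ZMod f)‖ ^ 2 ≤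
      6 * ((2:ℝ) ^ (j + 1) + (F : ℝ) ^ 2) * ∑ n ∈ Icc 1 (2 ^ (j + 1)), ‖β j n‖ ^ 2 := by
    intro j
    have := mult_large_sieve (2 ^ (j + 1)) F (β j)
    push_cast at this
    refine le_trans (le_of_eq ?_) this
    apply sum_congr rfl
    intro f hf
    rw [mem_Icc] at hf
    have : NeZero f := ⟨by omega⟩
    rw [PC_eq]
  have h4 : ∀ j : ℕ, 6 * ((2:ℝ) ^ (j + 1) + (F : ℝ) ^ 2) * ∑ n ∈ Icc 1 (2 ^ (j + 1)), ‖β j n‖ ^ 2 ≤
      6 * ∑ n ∈ (Icc 1 N).filter (fun n => Nat.log 2 n = j), (2 * n + (F : ℝ) ^ 2) * ‖α n‖ ^ 2 := by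
    intro j
    rw [mul_assoc, mul_sum]
    apply mul_le_mul_of_nonneg_left _ (by norm_num)
    have e : ∑ n ∈ Icc 1 (2 ^ (j + 1)), ((2:ℝ) ^ (j + 1) + (F : ℝ) ^ 2) * ‖β j n‖ ^ 2 =
        ∑ n ∈ (Icc 1 N).filter (fun n => Nat.log 2 n = j), ((2:ℝ) ^ (j + 1) + (F : ℝ) ^ 2) * ‖β j n‖ ^ 2 := by
      symm
      apply sum_subset
      · intro n hn
        rw [mem_filter, mem_Icc] at hn
        rw [mem_Icc]
        refine ⟨hn.1.1, ?_⟩
        have := Nat.lt_pow_succ_log_self (b := 2) (by norm_num) n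
        rw [hn.2] at this
        omega
      · intro n hn hn2
        rw [hβ]
        simp only
        rw [if_neg]
        · simp
        intro h
        apply hn2
        rw [mem_filter]
        exact h
    rw [e]
    apply sum_le_sum
    intro n hn
    rw [mem_filter] at hn
    have hn' := hn.1
    rw [mem_Icc] at hn'
    have e2 : β j n = α n := by
      rw [hβ]; simp only; rw [if_pos hn]
    rw [e2]
    have h5 : (2:ℝ) ^ (j + 1) ≤ 2 * n := by
      rw [pow_succ, mul_comm]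
      have := Nat.pow_log_le_self 2 (show n ≠ 0 by omega)
      rw [hn.2] at this
      have h6 : ((2:ℝ) ^ j) ≤ n := by exact_mod_cast this
      linarith
    gcongr
  calc _ ≤ ∑ f ∈ Icc 1 F, ((f : ℝ) / (Nat.totient f : ℝ)) *
      ∑ χ ∈ PC f, (J * ∑ j ∈ range J, ‖∑ n ∈ Icc 1 (2 ^ (j + 1)), β j n * χ (n : ZMod f)‖ ^ 2) := by
        gcongr with f hf χ hχ
        exact h2 f χ
    _ = J * ∑ j ∈ range J, ∑ f ∈ Icc 1 F, ((f : ℝ) / (Nat.totient f : ℝ)) *
      ∑ χ ∈ PC f, ‖∑ n ∈ Icc 1 (2 ^ (j + 1)), β j n * χ (n : ZMod f)‖ ^ 2 := by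
        rw [sum_comm, mul_sum]
        apply sum_congr rfl
        intro f _
        rw [← mul_sum, ← mul_sum, sum_comm]
        ring
    _ ≤ J * ∑ j ∈ range J, 6 * ∑ n ∈ (Icc 1 N).filter (fun n => Nat.log 2 n = j),
          (2 * n + (F : ℝ) ^ 2) * ‖α n‖ ^ 2 := by
        gcongr with j hj
        exact (h3 j).trans (h4 j)
    _ = 6 * J * ∑ n ∈ Icc 1 N, (2 * n + (F : ℝ) ^ 2) * ‖α n‖ ^ 2 := by
        have hm : ∀ n ∈ Icc 1 N, Nat.log 2 n ∈ range J := by
          intro n hn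
          rw [mem_Icc] at hn
          rw [mem_range, hJ]
          have := Nat.log_mono_right (b := 2) hn.2
          omega
        rw [← mul_sum, sum_fiberwise_of_maps_to hm]
        ring
    _ = _ := by rw [hJ]; push_cast; ring

theorem harm_sum_le (N : ℕ) : ∑ n ∈ Icc 1 N, (1 : ℝ) / n ≤ 1 + Real.log N := by
  have h := harmonic_le_one_add_log N
  rw [harmonic_eq_sum_Icc] at h
  push_cast at h
  have e : ∑ n ∈ Icc 1 N, (1 / (n:ℝ)) = ∑ n ∈ Icc 1 N, ((n:ℝ))⁻¹ := by simp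
  rw [e]; exact h

theorem tau_sum_le (N : ℕ) : ∑ n ∈ Icc 1 N, (n.divisors.card : ℝ) / n ≤ (1 + Real.log N) ^ 2 := by
  have h0 : 0 ≤ Real.log (N:ℝ) := Real.log_natCast_nonneg N
  have h1 : ∑ n ∈ Icc 1 N, (n.divisors.card : ℝ) / n =
      ∑ n ∈ Icc 1 N, ∑ i ∈ n.divisorsAntidiagonal, (1:ℝ) / (i.1 * i.2) := by
    apply sum_congr rfl
    intro n hn
    have h2 : ∀ i ∈ n.divisorsAntidiagonal, (1:ℝ) / (i.1 * i.2) = 1 / n := by
      intro i hi
      rw [Nat.mem_divisorsAntidiagonal] at hi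
      rw [← hi.1]; push_cast; rfl
    rw [sum_congr rfl h2, sum_const, nsmul_eq_mul, ← Nat.map_div_right_divisors, card_map]
    ring
  rw [h1, hyperC N (fun b c => (1:ℝ) / (b * c))]
  calc _ ≤ ∑ c ∈ Icc 1 N, ∑ b ∈ Icc 1 N, (1:ℝ) / (b * c) := by
        apply sum_le_sum
        intro c hc
        apply sum_le_sum_of_subset_of_nonneg
        · exact Icc_subset_Icc_right (Nat.div_le_self _ _)
        · intro b _ _; positivity
    _ = (∑ c ∈ Icc 1 N, (1:ℝ) / c) ^ 2 := by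
        rw [sq, sum_mul_sum]
        apply sum_congr rfl; intro c _
        apply sum_congr rfl; intro b _
        rw [one_div_mul_one_div, mul_comm]
    _ ≤ _ := by
        have := harm_sum_le N
        have h3 : 0 ≤ ∑ c ∈ Icc 1 N, (1:ℝ) / c := sum_nonneg fun _ _ => by positivity
        gcongr

theorem tau_mul_le (a b : ℕ) : (a * b).divisors.card ≤ a.divisors.card * b.divisors.card := by
  rw [Nat.divisors_mul]
  exact Finset.card_mul_le

theorem tau_sq_sum_le (N : ℕ) : ∑ n ∈ Icc 1 N, (n.divisors.card : ℝ) ^ 2 / n ≤ (1 + Real.log N) ^ 4 := by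
  have h0 : 0 ≤ Real.log (N:ℝ) := Real.log_natCast_nonneg N
  have h1 : ∑ n ∈ Icc 1 N, (n.divisors.card : ℝ) ^ 2 / n =
      ∑ n ∈ Icc 1 N, ∑ i ∈ n.divisorsAntidiagonal, ((i.1 * i.2).divisors.card : ℝ) / (i.1 * i.2) := by
    apply sum_congr rfl
    intro n hn
    have h2 : ∀ i ∈ n.divisorsAntidiagonal, ((i.1 * i.2).divisors.card : ℝ) / (i.1 * i.2) =
        (n.divisors.card : ℝ) / n := by
      intro i hi
      rw [Nat.mem_divisorsAntidiagonal] at hi
      rw [← hi.1]; push_cast; rfl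
    rw [sum_congr rfl h2, sum_const, nsmul_eq_mul]
    have : (n.divisorsAntidiagonal.card : ℝ) = n.divisors.card := by
      rw [← Nat.map_div_right_divisors, card_map]
    rw [this]
    ring
  rw [h1, hyperC N (fun b c => ((b * c).divisors.card : ℝ) / (b * c))]
  calc _ ≤ ∑ c ∈ Icc 1 N, ∑ b ∈ Icc 1 N, ((b.divisors.card : ℝ) / b) * ((c.divisors.card : ℝ) / c) := by
        apply sum_le_sum
        intro c hc
        refine le_trans (sum_le_sum_of_subset_of_nonneg (t := Icc 1 N)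
          (Icc_subset_Icc_right (Nat.div_le_self _ _)) (fun b _ _ => by positivity)) ?_
        apply sum_le_sum
        intro b _
        rw [div_mul_div_comm]
        gcongr
        exact_mod_cast tau_mul_le b c
    _ = (∑ c ∈ Icc 1 N, (c.divisors.card : ℝ) / c) ^ 2 := by
        rw [sq, sum_mul_sum]
        rw [sum_comm]
    _ ≤ ((1 + Real.log N) ^ 2) ^ 2 := by
        have := tau_sum_le N
        have h3 : 0 ≤ ∑ c ∈ Icc 1 N, (c.divisors.card : ℝ) / c := sum_nonneg fun _ _ => by positivity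
        gcongr
    _ = _ := by ring

end Pool.Agent.H316R2
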